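import Pool.Agent.Helper54.FP.Inst

/-!
# A primitive element (FP-21)
-/

set_option autoImplicit false
set_option linter.unusedVariables false
set_option linter.unusedSectionVars false

namespace Pool.Agent.Helper54.FP

section prim

variable {H M N : Type} [Group H] [Fintype H] [DecidableEq H] [CommRing M] [CommRing N]

/-- the product of the differences -/
def primW (T : H → M) (g : H) : M := ∏ h, if h = g then 1 else T g - T h

/-- the discriminant -/
def primD (T : H → M) : M := ∏ g, primW T g

/-- the interpolation polynomial -/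
noncomputable def primQ (T Z : H → M) : Polynomial M :=
  ∑ g, Polynomial.C (Z g) * (∏ h, if h = g then 1 else (Polynomial.X - Polynomial.C (T h))) *
    Polynomial.C (∏ k, if k = g then 1 else primW T k)

/-- the characteristic polynomial -/
noncomputable def primR (T : H → M) : Polynomial M := ∏ g, (Polynomial.X - Polynomial.C (T g))

theorem primW_map (f : M →+* N) (T : H → M) (g : H) : f (primW T g) = primW (fun h => f (T h)) g := by
  unfold primW
  rw [map_prod]
  apply Finset.prod_congr rfl
  intro h _
  split <;> simp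

theorem primD_map (f : M →+* N) (T : H → M) : f (primD T) = primD (fun h => f (T h)) := by
  unfold primD
  rw [map_prod]
  exact Finset.prod_congr rfl fun g _ => primW_map f T g

theorem primQ_map (f : M →+* N) (T Z : H → M) :
    (primQ T Z).map f = primQ (fun h => f (T h)) (fun h => f (Z h)) := by
  unfold primQ
  rw [Polynomial.map_sum]
  apply Finset.sum_congr rfl
  intro g _
  rw [Polynomial.map_mul, Polynomial.map_mul, Polynomial.map_C, Polynomial.map_C,
    Polynomial.map_prod, map_prod]
  congr 2
  · apply Finset.prod_congr rfl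
    intro h _
    split <;> simp
  · apply Finset.prod_congr rfl
    intro h _
    split
    · simp
    · exact primW_map f T h

theorem primR_map (f : M →+* N) (T : H → M) : (primR T).map f = primR (fun h => f (T h)) := by
  unfold primR
  rw [Polynomial.map_prod]
  apply Finset.prod_congr rfl
  intro g _
  simp

theorem primW_shift (k : H) (T : H → M) (g : H) :
    primW (fun h => T (k * h)) g = primW T (k * g) := by
  unfold primW
  refine Fintype.prod_equiv (Equiv.mulLeft k) _ _ ?_
  intro h
  simp [mul_right_inj]

theorem primD_shift (k : H) (T : H → M) : primD (fun h => T (k * h)) = primD T := by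
  unfold primD
  refine Fintype.prod_equiv (Equiv.mulLeft k) _ _ ?_
  intro h
  rw [primW_shift]
  rfl

theorem primR_shift (k : H) (T : H → M) : primR (fun h => T (k * h)) = primR T := by
  unfold primR
  refine Fintype.prod_equiv (Equiv.mulLeft k) _ _ ?_
  intro h
  rfl

theorem primQ_shift (k : H) (T Z : H → M) :
    primQ (fun h => T (k * h)) (fun h => Z (k * h)) = primQ T Z := by
  unfold primQ
  refine Fintype.sum_equiv (Equiv.mulLeft k) _ _ ?_
  intro g
  have h1 : (∏ h, if h = g then (1 : Polynomial M) else
      (Polynomial.X - Polynomial.C (T (k * h)))) =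
      ∏ h, if h = k * g then 1 else (Polynomial.X - Polynomial.C (T h)) := by
    refine Fintype.prod_equiv (Equiv.mulLeft k) _ _ ?_
    intro h
    simp [mul_right_inj]
  have h2 : (∏ l, if l = g then (1 : M) else primW (fun h => T (k * h)) l) =
      ∏ l, if l = k * g then 1 else primW T l := by
    refine Fintype.prod_equiv (Equiv.mulLeft k) _ _ ?_
    intro h
    simp only [primW_shift, Equiv.coe_mulLeft, mul_right_inj]
  rw [h1, h2]
  rfl

theorem primQ_eval (T Z : H → M) (g : H) : (primQ T Z).eval (T g) = Z g * primD T := by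
  unfold primQ
  rw [Polynomial.eval_finsetSum, Finset.sum_eq_single g]
  · rw [Polynomial.eval_mul, Polynomial.eval_mul, Polynomial.eval_C, Polynomial.eval_C,
      Polynomial.eval_prod, mul_assoc]
    congr 1
    have h1 : ∏ h, Polynomial.eval (T g) (if h = g then (1 : Polynomial M) else
        (Polynomial.X - Polynomial.C (T h))) = primW T g := by
      unfold primW
      apply Finset.prod_congr rfl
      intro h _
      split <;> simp
    rw [h1]
    unfold primD
    rw [← Finset.mul_prod_erase Finset.univ (primW T) (Finset.mem_univ g)]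
    congr 1
    rw [← Finset.mul_prod_erase Finset.univ _ (Finset.mem_univ g), if_pos rfl, one_mul]
    apply Finset.prod_congr rfl
    intro h hh
    rw [if_neg (Finset.ne_of_mem_erase hh)]
  · intro h _ hne
    rw [Polynomial.eval_mul, Polynomial.eval_mul, Polynomial.eval_prod,
      Finset.prod_eq_zero (Finset.mem_univ g)]
    · simp
    · rw [if_neg hne.symm]
      simp
  · intro h
    exact absurd (Finset.mem_univ g) h

theorem primD_ne_zero [IsDomain M] (T : H → M) (hT : Function.Injective T) : primD T ≠ 0 := by
  unfold primD primW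
  rw [Finset.prod_ne_zero_iff]
  intro g _
  rw [Finset.prod_ne_zero_iff]
  intro h _
  split
  · exact one_ne_zero
  · rename_i hne
    exact sub_ne_zero.2 fun h1 => hne (hT h1).symm

end prim

section FMsec
variable {p : ℕ} [Fact p.Prime] {G : Type} [Group G] [Fintype G] [DecidableEq G]

/-- descent of polynomials -/
theorem prim_descent {R Ω : Type} [CommRing R] [CommRing Ω] {φ : R →+* Ω}
    {Y : Matrix G G Ω} {H : Subgroup G} (h : FM p φ Y H)
    (Q : Polynomial (MvPolynomial (G × G) R))
    (hQ : ∀ k ∈ H, Q.map (ev φ (actM k Y)) = Q.map (ev φ Y)) :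
    ∃ q : Polynomial R, q.map φ = Q.map (ev φ Y) := by
  have h1 : ∀ n, ∃ r : R, ev φ Y (Q.coeff n) = φ r := by
    intro n
    apply h.fix
    intro g hg
    have := congrArg (fun P => Polynomial.coeff P n) (hQ g hg)
    simpa using this
  choose r hr using h1
  refine ⟨∑ n ∈ Finset.range (Q.natDegree + 1), Polynomial.monomial n (r n), ?_⟩
  ext n
  rw [Polynomial.map_sum, Polynomial.finsetSum_coeff, Polynomial.coeff_map]
  simp only [Polynomial.map_monomial, Polynomial.coeff_monomial]
  rw [Finset.sum_ite_eq']
  split
  · exact (hr n).symm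
  · rename_i hn
    rw [Finset.mem_range, not_lt] at hn
    rw [Polynomial.coeff_eq_zero_of_natDegree_lt (by omega), map_zero]

/-- existence of an expression with distinct conjugates -/
theorem prim_theta {R Ω : Type} [CommRing R] [Infinite R] [Field Ω] {φ : R →+* Ω}
    (hφ : Function.Injective φ) {Y : Matrix G G Ω} (hY : IsUnit Y) :
    ∃ Θ : MvPolynomial (G × G) R, ∀ g : G, g ≠ 1 → ev φ (actM g Y) Θ ≠ ev φ Y Θ := by
  classical
  obtain ⟨e, he⟩ : ∃ e : G × G → ℕ, Function.Injective e :=
    ⟨fun x => (Fintype.equivFin (G × G) x : ℕ), fun x y hxy =>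
      (Fintype.equivFin (G × G)).injective (Fin.ext hxy)⟩
  set P : G → Polynomial Ω := fun g =>
    ∑ ij : G × G, Polynomial.monomial (e ij) (Y ij.1 (g * ij.2) - Y ij.1 ij.2) with hP
  have hcol : ∀ g : G, g ≠ 1 → ∃ i, Y i (g * 1) - Y i 1 ≠ 0 := by
    intro g hg
    by_contra hcon
    push Not at hcon
    have h1 : Y.det = 0 := by
      apply Matrix.det_zero_of_column_eq (i := g) (j := 1) hg
      intro i
      have := sub_eq_zero.1 (hcon i)
      rwa [mul_one] at this
    have h2 := (Matrix.isUnit_iff_isUnit_det Y).1 hY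
    rw [h1] at h2
    exact not_isUnit_zero h2
  have hP0 : ∀ g : G, g ≠ 1 → P g ≠ 0 := by
    intro g hg h0
    obtain ⟨i, hi⟩ := hcol g hg
    apply hi
    have h1 := congrArg (fun q => Polynomial.coeff q (e (i, 1))) h0
    rw [hP] at h1
    simp only [Polynomial.finsetSum_coeff, Polynomial.coeff_monomial, Polynomial.coeff_zero] at h1
    rw [Finset.sum_eq_single (i, 1)] at h1
    · rw [if_pos rfl] at h1
      exact h1
    · intro b _ hb
      rw [if_neg]
      intro h2
      exact hb (he h2)
    · intro h2
      exact absurd (Finset.mem_univ _) h2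
  have hprod : (∏ g ∈ Finset.univ.erase (1 : G), P g) ≠ 0 :=
    Finset.prod_ne_zero_iff.2 fun g hg => hP0 g (Finset.ne_of_mem_erase hg)
  obtain ⟨t, ht⟩ : ∃ t : R, (∏ g ∈ Finset.univ.erase (1 : G), P g).eval (φ t) ≠ 0 := by
    by_contra hcon
    push Not at hcon
    have h1 : Set.range φ ⊆ ((∏ g ∈ Finset.univ.erase (1 : G), P g).roots.toFinset : Set Ω) := by
      rintro _ ⟨t, rfl⟩
      rw [Finset.mem_coe, Multiset.mem_toFinset, Polynomial.mem_roots hprod]
      exact hcon t
    exact (Set.infinite_range_of_injective hφ) (Set.Finite.subset (Finset.finite_toSet _) h1)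
  refine ⟨∑ ij : G × G, MvPolynomial.C (t ^ (e ij)) * MvPolynomial.X ij, ?_⟩
  intro g hg h1
  rw [Polynomial.eval_prod, Finset.prod_ne_zero_iff] at ht
  apply ht g (Finset.mem_erase.2 ⟨hg, Finset.mem_univ _⟩)
  rw [hP]
  simp only [Polynomial.eval_finsetSum, Polynomial.eval_monomial, sub_mul]
  rw [Finset.sum_sub_distrib, sub_eq_zero]
  rw [map_sum, map_sum] at h1
  have h2 : ∀ (Z : Matrix G G Ω) (ij : G × G), ev φ Z (MvPolynomial.C (t ^ (e ij)) *
      MvPolynomial.X ij) = Z ij.1 ij.2 * φ t ^ (e ij) := by
    intro Z ij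
    rw [map_mul, ev_C, map_pow, mul_comm]
    congr 1
    exact ev_X φ Z ij.1 ij.2
  simp only [h2] at h1
  exact h1

theorem prim_clear {R F : Type} [CommRing R] [IsDomain R] [Field F] [Algebra R F]
    [IsFractionRing R F] (a : Polynomial F) :
    ∃ (b : Polynomial R) (d : R), d ≠ 0 ∧ b.map (algebraMap R F) = Polynomial.C (algebraMap R F d) * a := by
  obtain ⟨d, hd, hda⟩ := IsLocalization.integerNormalization_spec (nonZeroDivisors R) a
  refine ⟨IsLocalization.integerNormalization (nonZeroDivisors R) a, d,
    nonZeroDivisors.ne_zero hd, ?_⟩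
  rw [hda, Polynomial.C_mul', algebraMap_smul]

theorem exists_prim {K Ω : Type} [Field K] [CharP K p] [Field Ω] {φ : Polynomial K →+* Ω}
    (hφ : Function.Injective φ) {Y : Matrix G G Ω} {H : Subgroup G} [Fintype H]
    (h : FM p φ Y H) :
    ∃ (Θ : MvPolynomial (G × G) (Polynomial K)) (r A B : Polynomial (Polynomial K))
      (q : G → G → Polynomial (Polynomial K)) (d e : Polynomial K),
      r.Monic ∧ Irreducible r ∧ d ≠ 0 ∧ e ≠ 0 ∧
      r.map φ = ∏ g : H, (Polynomial.X - Polynomial.C (ev φ (actM (g : G) Y) Θ)) ∧
      (∀ i j, φ d * Y i j = (q i j).eval₂ φ (ev φ Y Θ)) ∧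
      A * r + B * Polynomial.derivative r = Polynomial.C e := by
  classical
  obtain ⟨Θ, hΘ⟩ := prim_theta hφ h.unit
  set T : H → Ω := fun g => ev φ (actM (g : G) Y) Θ with hT
  have hsh : ∀ (k g : G) (F : MvPolynomial (G × G) (Polynomial K)),
      ev φ (actM k Y) (sh g F) = ev φ (actM (k * g) Y) F := by
    intro k g F
    rw [ev_sh, actM_actM]
  have hTinj : Function.Injective T := by
    intro g g' hgg
    by_contra hne
    have h1 : ((g' : G)⁻¹ * (g : G)) ≠ 1 := by
      intro h2
      apply hne
      apply Subtype.ext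
      exact (inv_mul_eq_one.1 h2).symm
    have h2 := hΘ _ h1
    apply h2
    -- apply the symmetry to the relation
    have h3 : ev φ Y (sh (g : G) Θ - sh (g' : G) Θ) = 0 := by
      rw [map_sub, ev_sh, ev_sh]
      exact sub_eq_zero.2 hgg
    have h4 := h.sym ((g' : G)⁻¹) (H.inv_mem g'.2) _ h3
    rw [map_sub, hsh, hsh, inv_mul_cancel, actM_one] at h4
    exact sub_eq_zero.1 h4
  have hT1 : T 1 = ev φ Y Θ := by
    rw [hT]
    simp
  -- the generic objects
  set TT : H → MvPolynomial (G × G) (Polynomial K) := fun g => sh (g : G) Θ with hTT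
  have hTk : ∀ k : H, (fun g => ev φ (actM (k : G) Y) (TT g)) = fun g => T (k * g) := by
    intro k
    funext g
    rw [hTT, hT]
    simp only
    rw [hsh]
    rfl
  have hTY : (fun g => ev φ Y (TT g)) = T := by
    funext g
    rw [hTT, hT]
    simp only
    rw [ev_sh]
  -- the polynomial r
  obtain ⟨r, hr⟩ := prim_descent h (primR TT) (by
    intro k hk
    rw [primR_map, primR_map, hTY, hTk ⟨k, hk⟩, primR_shift])
  rw [primR_map, hTY] at hr
  -- the discriminant
  obtain ⟨d, hd⟩ := h.fix (primD TT) (by
    intro k hk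
    rw [primD_map, primD_map, hTY, hTk ⟨k, hk⟩, primD_shift])
  rw [primD_map, hTY] at hd
  -- the interpolation polynomials
  have hq : ∀ i j : G, ∃ q : Polynomial (Polynomial K), φ d * Y i j = q.eval₂ φ (ev φ Y Θ) := by
    intro i j
    set ZZ : H → MvPolynomial (G × G) (Polynomial K) := fun g => sh (g : G) (MvPolynomial.X (i, j))
      with hZZ
    set Z : H → Ω := fun g => ev φ (actM (g : G) Y) (MvPolynomial.X (i, j)) with hZ
    have hZk : ∀ k : H, (fun g => ev φ (actM (k : G) Y) (ZZ g)) = fun g => Z (k * g) := by
      intro k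
      funext g
      rw [hZZ, hZ]
      simp only
      rw [hsh]
      rfl
    have hZY : (fun g => ev φ Y (ZZ g)) = Z := by
      funext g
      rw [hZZ, hZ]
      simp only
      rw [ev_sh]
    obtain ⟨q, hq⟩ := prim_descent h (primQ TT ZZ) (by
      intro k hk
      rw [primQ_map, primQ_map, hTY, hZY, hTk ⟨k, hk⟩, hZk ⟨k, hk⟩, primQ_shift])
    rw [primQ_map, hTY, hZY] at hq
    refine ⟨q, ?_⟩
    have hZ1 : Z 1 = Y i j := by
      simp only [hZ, OneMemClass.coe_one, actM_one, ev_X]
    rw [← Polynomial.eval_map, hq, ← hT1, primQ_eval, ← hd, hZ1, mul_comm]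
  choose q hq using hq
  have hd0 : d ≠ 0 := by
    intro h0
    rw [h0, map_zero] at hd
    exact primD_ne_zero T hTinj hd
  have hrm : r.Monic := by
    apply Polynomial.monic_of_injective hφ
    rw [hr]
    unfold primR
    exact Polynomial.monic_prod_of_monic _ _ fun g _ => Polynomial.monic_X_sub_C _
  have hrdeg : r.natDegree = Fintype.card H := by
    rw [← Polynomial.natDegree_map_eq_of_injective hφ r, hr]
    unfold primR
    rw [Polynomial.natDegree_prod_of_monic _ _ fun g _ => Polynomial.monic_X_sub_C _]
    simp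
  have hroot : ∀ f : Polynomial (Polynomial K), f.Monic → f.eval₂ φ (T 1) = 0 →
      Fintype.card H ≤ f.natDegree := by
    intro f hf h0
    have h1 : ∀ g : H, f.eval₂ φ (T g) = 0 := by
      intro g
      have h2 : ∀ Z : Matrix G G Ω, ev φ Z (f.eval₂ MvPolynomial.C Θ) = f.eval₂ φ (ev φ Z Θ) := by
        intro Z
        have h5 : (ev φ Z).comp MvPolynomial.C = φ := RingHom.ext fun x => ev_C φ Z x
        rw [Polynomial.hom_eval₂, h5]
      have h3 : ev φ Y (f.eval₂ MvPolynomial.C Θ) = 0 := by
        rw [h2, ← hT1, h0]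
      have h4 := h.sym (g : G) g.2 _ h3
      rw [h2] at h4
      exact h4
    have hfm : (f.map φ) ≠ 0 := (hf.map φ).ne_zero
    rw [← Polynomial.natDegree_map_eq_of_injective hφ f]
    calc Fintype.card H = (Finset.univ.image T).card := by
          rw [Finset.card_image_of_injective _ hTinj, Finset.card_univ]
      _ ≤ (f.map φ).roots.toFinset.card := by
          apply Finset.card_le_card
          intro x hx
          obtain ⟨g, _, rfl⟩ := Finset.mem_image.1 hx
          rw [Multiset.mem_toFinset, Polynomial.mem_roots hfm, Polynomial.IsRoot,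
            Polynomial.eval_map]
          exact h1 g
      _ ≤ _ := (Multiset.toFinset_card_le _).trans (Polynomial.card_roots' _)
  have hr1 : r.eval₂ φ (T 1) = 0 := by
    rw [← Polynomial.eval_map, hr]
    unfold primR
    rw [Polynomial.eval_prod]
    exact Finset.prod_eq_zero (Finset.mem_univ 1) (by simp)
  have hcard : 0 < Fintype.card H := Fintype.card_pos
  have hirr : Irreducible r := by
    rw [hrm.irreducible_iff_natDegree]
    refine ⟨?_, ?_⟩
    · rintro rfl
      rw [Polynomial.natDegree_one] at hrdeg
      omega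
    · intro f g hf hg hfg
      have h1 : f.eval₂ φ (T 1) * g.eval₂ φ (T 1) = 0 := by
        rw [← Polynomial.eval₂_mul, hfg, hr1]
      have h2 : f.natDegree + g.natDegree = Fintype.card H := by
        rw [← hrdeg, ← hfg, hf.natDegree_mul hg]
      rcases mul_eq_zero.1 h1 with h3 | h3
      · have := hroot f hf h3
        right; omega
      · have := hroot g hg h3
        left; omega
  -- the identity for the discriminant
  have hsep : ∃ (A B : Polynomial (Polynomial K)) (e : Polynomial K), e ≠ 0 ∧
      A * r + B * Polynomial.derivative r = Polynomial.C e := by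
    set F := FractionRing (Polynomial K)
    have hφ' : Function.Injective φ := hφ
    set ψ : F →+* Ω := IsFractionRing.lift (A := Polynomial K) (K := F) hφ with hψ
    have hcomp : ψ.comp (algebraMap (Polynomial K) F) = φ :=
      RingHom.ext fun x => IsFractionRing.lift_algebraMap hφ x
    have h1 : ((r.map (algebraMap (Polynomial K) F)).map ψ).Separable := by
      rw [Polynomial.map_map, hcomp, hr]
      unfold primR
      exact Polynomial.separable_prod_X_sub_C_iff.2 hTinj
    rw [Polynomial.separable_map] at h1
    obtain ⟨a, b, hab⟩ := h1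
    obtain ⟨A, d1, hd1, hA⟩ := prim_clear (R := Polynomial K) a
    obtain ⟨B, d2, hd2, hB⟩ := prim_clear (R := Polynomial K) b
    refine ⟨Polynomial.C d2 * A, Polynomial.C d1 * B, d1 * d2, mul_ne_zero hd1 hd2, ?_⟩
    apply Polynomial.map_injective (algebraMap (Polynomial K) F)
      (IsFractionRing.injective (Polynomial K) F)
    rw [Polynomial.map_add, Polynomial.map_mul, Polynomial.map_mul, Polynomial.map_mul,
      Polynomial.map_mul, Polynomial.map_C, Polynomial.map_C, Polynomial.map_C, hA, hB,
      ← Polynomial.derivative_map, map_mul, Polynomial.C_mul]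
    linear_combination (Polynomial.C (algebraMap (Polynomial K) F d1) *
      Polynomial.C (algebraMap (Polynomial K) F d2)) * hab
  obtain ⟨A, B, e, he, hAB⟩ := hsep
  exact ⟨Θ, r, A, B, q, d, e, hrm, hirr, hd0, he, hr, hq, hAB⟩

end FMsec

end Pool.Agent.Helper54.FP
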